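import Pool.Agent.Helper74.LL.GoalsI

/-!
# Project LL (MP_cc6379_al): packet LL-IP1, from the degree estimate to P1.
-/

set_option autoImplicit false

open LaurentPolynomial Pool.Agent.Helper15.RA Pool.Agent.Helper45.AM

noncomputable section

namespace Pool.Agent.Helper9.LL.IP1

open Pool.Agent.Helper74.LL

variable {S W H : Type} [Group W] [Ring H] [Algebra ℤ[T;T⁻¹] H]

/-- The expansion in the basis `T_w`. -/
theorem eq_sum_t (X : Base S W H) (Z : H) :
    Z = ∑ u ∈ (X.D.t.repr Z).support, X.D.t.repr Z u • X.D.t u := by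
  conv_lhs => rw [← X.D.t.linearCombination_repr Z]
  rw [Finsupp.linearCombination_apply, Finsupp.sum]

/-- The expansion in the basis `c_w`. -/
theorem eq_sum_c (X : Base S W H) (Z : H) :
    Z = ∑ u ∈ (X.b.repr Z).support, X.b.repr Z u • X.D.c u := by
  conv_lhs => rw [← X.b.linearCombination_repr Z]
  rw [Finsupp.linearCombination_apply, Finsupp.sum]
  refine Finset.sum_congr rfl fun u _ => ?_
  rw [X.hb]

/-- If the `T`-support of `Z` is in lengths `< n`, then so is its `c`-support. -/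
theorem supp_c (X : Base S W H) (Z : H) (n : ℕ)
    (h : ∀ u, X.D.t.repr Z u ≠ 0 → X.cs.length u < n) (w : W) (hw : X.b.repr Z w ≠ 0) :
    X.cs.length w < n := by
  obtain ⟨-, -, -, h4, -⟩ := Pool.Agent.Helper15.AM.k_ab S W H X
  have e : X.b.repr Z w =
      ∑ u ∈ (X.D.t.repr Z).support, X.D.t.repr Z u * X.b.repr (X.D.t u) w := by
    conv_lhs => rw [eq_sum_t X Z]
    rw [map_sum, Finsupp.finsetSum_apply]
    refine Finset.sum_congr rfl fun u _ => ?_
    rw [map_smul, Finsupp.smul_apply, smul_eq_mul]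
  rw [e] at hw
  obtain ⟨u, hu, hu'⟩ := Finset.exists_ne_zero_of_sum_ne_zero hw
  have h1 := h u (Finsupp.mem_support_iff.1 hu)
  rcases h4 u w (right_ne_zero_of_mul hu') with h2 | h2
  · rw [h2]
    exact h1
  · omega

section tri

variable (X : Base S W H) {I : Set S} {x g y : W}

/-- `T_x c_g T_y = ∑ p_k T_(x k) T_y` -/
theorem B_eq (hx : XR X.cs I x) (hg : g ∈ par X.cs I) :
    X.D.t x * X.D.c g * X.D.t y =
      ∑ k ∈ (X.D.t.repr (X.D.c g)).support, X.D.t.repr (X.D.c g) k • (X.D.t (x * k) * X.D.t y) := by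
  obtain ⟨-, -, -, h4, -⟩ := Pool.Agent.Helper15.AM.k_as S W H X I
  obtain ⟨-, -, hP⟩ := Pool.Agent.Helper15.AM.k_gpa S W X.M X.cs I
  have e := eq_sum_t X (X.D.c g)
  have e2 : X.D.t x * X.D.c g =
      ∑ k ∈ (X.D.t.repr (X.D.c g)).support, X.D.t.repr (X.D.c g) k • X.D.t (x * k) := by
    conv_lhs => rw [e]
    rw [Finset.mul_sum]
    refine Finset.sum_congr rfl fun k hk => ?_
    have hk' : k ∈ par X.cs I := h4 g hg k (Finsupp.mem_support_iff.1 hk)
    rw [mul_smul_comm, X.D.mul x k (hP x hx k hk')]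
  rw [e2, Finset.sum_mul]
  refine Finset.sum_congr rfl fun k _ => ?_
  rw [smul_mul_assoc]

/-- The `T`-coordinates of `T_x c_g T_y - T_(x g y)` are in smaller lengths. -/
theorem B_sub (hx : XR X.cs I x) (hg : g ∈ par X.cs I)
    (hl : X.cs.length (x * g * y) = X.cs.length x + X.cs.length g + X.cs.length y) (u : W)
    (hu : X.D.t.repr (X.D.t x * X.D.c g * X.D.t y - X.D.t (x * g * y)) u ≠ 0) :
    X.cs.length u < X.cs.length (x * g * y) := by
  classical
  obtain ⟨-, -, -, h4, -⟩ := Pool.Agent.Helper15.AM.k_as S W H X I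
  obtain ⟨-, -, hP⟩ := Pool.Agent.Helper15.AM.k_gpa S W X.M X.cs I
  obtain ⟨-, -, -, h21, h22, -⟩ := g_h2 S W H X.M X.cs X.L X.wt X.D
  obtain ⟨-, -, -, -, -, h16, -⟩ := g_h1 S W H X.M X.cs X.L X.D.toHecke0
  have hgs : g ∈ (X.D.t.repr (X.D.c g)).support := by
    rw [Finsupp.mem_support_iff, h21 g]
    exact one_ne_zero
  have e1 : X.D.t (x * g) * X.D.t y = X.D.t (x * g * y) := by
    apply X.D.mul
    rw [hl, hP x hx g hg]
  have e : X.D.t x * X.D.c g * X.D.t y - X.D.t (x * g * y) =
      ∑ k ∈ (X.D.t.repr (X.D.c g)).support.erase g,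
        X.D.t.repr (X.D.c g) k • (X.D.t (x * k) * X.D.t y) := by
    rw [B_eq X hx hg, ← Finset.add_sum_erase _ _ hgs, h21 g, one_smul, e1, add_sub_cancel_left]
  rw [e, map_sum, Finsupp.finsetSum_apply] at hu
  obtain ⟨k, hk, hk'⟩ := Finset.exists_ne_zero_of_sum_ne_zero hu
  rw [Finset.mem_erase, Finsupp.mem_support_iff] at hk
  rw [map_smul, Finsupp.smul_apply, smul_eq_mul] at hk'
  have h1 := h16 (x * k) y u (right_ne_zero_of_mul hk')
  have h2 := hP x hx k (h4 g hg k hk.2)
  have h3 : X.cs.length k < X.cs.length g := (h22 g k hk.2).resolve_left hk.1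
  omega

/-- The `T_1`-coordinate of `T_x c_g T_y`. -/
theorem B_one (α : W → ℕ) (hpg : PG X.D X.h I α) (hx : XR X.cs I x) (hg : g ∈ par X.cs I)
    (hy : XL X.cs I y) :
    DegLE (-(α g : ℤ)) (X.D.t.repr (X.D.t x * X.D.c g * X.D.t y) 1) := by
  obtain ⟨-, -, -, h4, -⟩ := Pool.Agent.Helper15.AM.k_as S W H X I
  obtain ⟨hC1, -, hC3, -⟩ := Pool.Agent.Helper15.AM.k_gpc S W X.M X.cs I
  obtain ⟨-, -, -, -, -, -, h17, h18⟩ := g_h1 S W H X.M X.cs X.L X.D.toHecke0
  rw [B_eq X hx hg, map_sum, Finsupp.finsetSum_apply]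
  refine DegLE.sum fun k hk => ?_
  rw [map_smul, Finsupp.smul_apply, smul_eq_mul]
  have hk' : k ∈ par X.cs I := h4 g hg k (Finsupp.mem_support_iff.1 hk)
  by_cases hxy : x * k * y = 1
  · have e1 : x * k = y⁻¹ * 1 := by
      rw [mul_one]
      exact eq_inv_of_mul_eq_one_left hxy
    obtain ⟨-, e2⟩ := hC1 x y⁻¹ k 1 hx ((hC3 y).1 hy) hk' (one_mem _) e1
    have e3 : X.D.t.repr (X.D.t (x * k) * X.D.t y) 1 = 1 := h17 (x * k) y hxy
    rw [e3, mul_one, e2]
    exact hpg.p1 g hg
  · have e3 : X.D.t.repr (X.D.t (x * k) * X.D.t y) 1 = 0 := h18 (x * k) y hxy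
    rw [e3, mul_zero]
    exact DegLE.zero _

end tri

/-- Goal `IP1`. -/
theorem t (h : IGE) : IP1 := by
  intro S W H _ _ _ _ X a hGe hBP
  obtain ⟨-, -, -, -, -, -, h7⟩ := h S W H X
  obtain ⟨-, hb1, -, hb3, -⟩ := Pool.Agent.Helper15.AM.k_ab S W H X.toBase
  have key : ∀ n : ℕ, ∀ z, X.cs.length z = n → DegLE (-(a z : ℤ)) (X.D.t.repr (X.D.c z) 1) := by
    intro n
    induction n using Nat.strong_induction_on with
    | _ n ih =>
      intro z hz
      classical
      obtain ⟨x, g, y, I, hI, hx, hg, hy, hzz, hl, hM⟩ := h7 (a z) z ((hGe (a z) z).2 le_rfl)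
      have hM2 : X.α g ≤ a z := (hGe (X.α g) z).1 ⟨x, g, y, I, hI, hg, hzz, hl, le_rfl⟩
      have hα : X.α g = a z := le_antisymm hM2 hM
      have hl' : X.cs.length (x * g * y) = X.cs.length x + X.cs.length g + X.cs.length y := by
        rw [← hzz]
        exact hl
      -- the c-coordinates of B
      have hsub := supp_c X.toBase (X.D.t x * X.D.c g * X.D.t y - X.D.t (x * g * y))
        (X.cs.length (x * g * y)) (B_sub X.toBase hx hg hl')
      rw [← hzz] at hsub
      set B : H := X.D.t x * X.D.c g * X.D.t y with hB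
      have eB : B = X.D.t z + (B - X.D.t z) := by abel
      have hBz : X.b.repr B z = 1 := by
        rw [eB, map_add, Finsupp.add_apply, hb1 z]
        by_contra hne
        have : X.b.repr (B - X.D.t z) z ≠ 0 := by
          intro h0
          rw [h0, add_zero] at hne
          exact hne rfl
        exact absurd (hsub z this) (lt_irrefl _)
      have hBw : ∀ w, w ≠ z → X.b.repr B w ≠ 0 → X.cs.length w < X.cs.length z := by
        intro w hw hne
        rw [eB, map_add, Finsupp.add_apply] at hne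
        by_cases h0 : X.b.repr (B - X.D.t z) w = 0
        · rw [h0, add_zero] at hne
          exact (hb3 z w hne).resolve_left hw
        · exact hsub w h0
      have hzs : z ∈ (X.b.repr B).support := by
        rw [Finsupp.mem_support_iff, hBz]
        exact one_ne_zero
      have hc : X.D.c z = B - ∑ w ∈ (X.b.repr B).support.erase z, X.b.repr B w • X.D.c w := by
        have e := eq_sum_c X.toBase B
        rw [← Finset.add_sum_erase _ _ hzs, hBz, one_smul] at e
        exact eq_sub_of_add_eq e.symm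
      rw [hc, map_sub, Finsupp.sub_apply]
      refine DegLE.sub ?_ ?_
      · have := B_one X.toBase X.α (X.pg I hI) hx hg hy
        rw [hα] at this
        exact this
      · rw [map_sum, Finsupp.finsetSum_apply]
        refine DegLE.sum fun w hw => ?_
        rw [Finset.mem_erase, Finsupp.mem_support_iff] at hw
        rw [map_smul, Finsupp.smul_apply, smul_eq_mul]
        have hlw := hBw w hw.1 hw.2
        have h1 : ¬ X.Ge (a w + 1) w := by
          rw [hGe]
          omega
        have h2 := (hBP (a w) (X.cs.length x + X.cs.length y + 1) x g y ⟨I, hI, hx, hg, hy⟩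
          (Nat.lt_succ_self _) w h1).1
        have h3 := ih (X.cs.length w) (by omega) w rfl
        refine DegLE.mul_le h2 h3 ?_
        rw [hα]
        omega
  exact fun z => key _ z rfl

end Pool.Agent.Helper9.LL.IP1
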